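import Mathlib

namespace Pool.Agent.H.MP_75a0ab_co

open Finset

/-- A system of `n` vectors and functionals in dimension `d` whose matrix has diagonal `1` and
negative off-diagonal entries, `> -1`. -/
def Sys (d n : ℕ) : Prop :=
  ∃ f x : Fin n → Fin d → ℝ, (∀ i, ∑ k, f i k * x i k = 1) ∧
    ∀ i j, i ≠ j → -1 < ∑ k, f i k * x j k ∧ ∑ k, f i k * x j k < 0

/-- The weak form. -/
def WSys (d n : ℕ) : Prop :=
  ∃ f x : Fin n → Fin d → ℝ, (∀ i, ∑ k, f i k * x i k = 1) ∧
    ∀ i j, i ≠ j → -1 ≤ ∑ k, f i k * x j k ∧ ∑ k, f i k * x j k < 0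

theorem Sys.weak {d n : ℕ} (h : Sys d n) : WSys d n := by
  obtain ⟨f, x, h1, h2⟩ := h
  exact ⟨f, x, h1, fun i j hij => ⟨(h2 i j hij).1.le, (h2 i j hij).2⟩⟩

theorem wsys12 : WSys 1 2 := by
  refine ⟨![![1], ![-1]], ![![1], ![-1]], ?_, ?_⟩
  · intro i; fin_cases i <;> simp
  · intro i j hij; fin_cases i <;> fin_cases j <;> simp at hij ⊢

theorem small {ι : Type*} [Finite ι] (p : ι → Prop) (g : ι → ℝ) (h : ∀ i, p i → 0 < g i) :
    ∃ δ : ℝ, 0 < δ ∧ δ ≤ 1 ∧ ∀ i, p i → δ < g i := by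
  have : ∀ᶠ δ in nhdsWithin (0 : ℝ) (Set.Ioi 0), δ < 1 ∧ ∀ i : {i // p i}, δ < g i :=
    nhdsWithin_le_nhds ((eventually_lt_nhds one_pos).and
      (Filter.eventually_all.2 fun i => eventually_lt_nhds (h i.1 i.2)))
  obtain ⟨δ, h1, h2⟩ := (this.and self_mem_nhdsWithin).exists
  exact ⟨δ, h2, h1.1.le, fun i hi => h1.2 ⟨i, hi⟩⟩

theorem plug {d n m k : ℕ} (hA : Sys d (n + 1)) (hB : WSys m k) : Sys (d + m) (n + k) := by
  obtain ⟨f, x, h1, h2⟩ := hA
  obtain ⟨g, y, h3, h4⟩ := hB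
  obtain ⟨δ, hδ, hδ1, hs⟩ := small (fun p : Fin k × Fin k => p.1 ≠ p.2)
    (fun p => -∑ l, g p.1 l * y p.2 l) (fun p hp => by linarith [(h4 _ _ hp).2])
  have hp : 0 < 1 + δ := by linarith
  refine ⟨Fin.addCases (fun i => Fin.append (f i.succ) 0)
      (fun a => Fin.append (fun l => f 0 l / (1 + δ)) (fun l => g a l / (1 + δ))),
    Fin.addCases (fun i => Fin.append (x i.succ) 0)
      (fun a => Fin.append (fun l => δ * x 0 l) (y a)), fun i => ?_, fun i j hij => ?_⟩
  · refine Fin.addCases (fun i => ?_) (fun a => ?_) i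
    · simp [Fin.sum_univ_add, h1]
    · simp only [Fin.addCases_right, Fin.sum_univ_add, Fin.append_left, Fin.append_right]
      have e1 : ∑ l, f 0 l / (1 + δ) * (δ * x 0 l) = δ / (1 + δ) * ∑ l, f 0 l * x 0 l := by
        rw [mul_sum]; exact sum_congr rfl fun l _ => by ring
      have e2 : ∑ l, g a l / (1 + δ) * y a l = 1 / (1 + δ) * ∑ l, g a l * y a l := by
        rw [mul_sum]; exact sum_congr rfl fun l _ => by ring
      rw [e1, e2, h1, h3]; field_simp; ring
  · revert hij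
    refine Fin.addCases (fun i => ?_) (fun a => ?_) i <;>
      refine Fin.addCases (fun j => ?_) (fun b => ?_) j <;> intro hij <;>
      simp only [Fin.addCases_right, Fin.addCases_left, Fin.sum_univ_add, Fin.append_left,
        Fin.append_right, Pi.zero_apply, zero_mul, mul_zero, sum_const_zero, add_zero]
    · exact h2 _ _ fun e => hij (by rw [Fin.succ_injective _ e])
    · have e1 : ∑ l, f i.succ l * (δ * x 0 l) = δ * ∑ l, f i.succ l * x 0 l := by
        rw [mul_sum]; exact sum_congr rfl fun l _ => by ring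
      have := h2 i.succ 0 (Fin.succ_ne_zero i)
      rw [e1]
      constructor <;> nlinarith
    · have e1 : ∑ l, f 0 l / (1 + δ) * x j.succ l = (∑ l, f 0 l * x j.succ l) / (1 + δ) := by
        rw [sum_div]; exact sum_congr rfl fun l _ => by ring
      have := h2 0 j.succ (Fin.succ_ne_zero j).symm
      rw [e1, lt_div_iff₀ hp, div_lt_iff₀ hp]
      constructor <;> nlinarith
    · have e1 : ∑ l, f 0 l / (1 + δ) * (δ * x 0 l) = δ / (1 + δ) * ∑ l, f 0 l * x 0 l := by
        rw [mul_sum]; exact sum_congr rfl fun l _ => by ring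
      have e2 : ∑ l, g a l / (1 + δ) * y b l = (∑ l, g a l * y b l) / (1 + δ) := by
        rw [sum_div]; exact sum_congr rfl fun l _ => by ring
      have hab : a ≠ b := fun e => hij (by rw [e])
      have := h4 a b hab
      have := hs (a, b) hab
      rw [e1, e2, h1, mul_one, ← add_div, lt_div_iff₀ hp, div_lt_iff₀ hp]
      constructor <;> linarith

theorem of_int {d n : ℕ} (F X : Fin n → Fin d → ℤ) (h0 : ∀ i, 0 < ∑ k, F i k * X i k)
    (h : ∀ i j, i ≠ j → -∑ k, F i k * X i k < ∑ k, F i k * X j k ∧ ∑ k, F i k * X j k < 0) :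
    Sys d n := by
  have e : ∀ i j, ∑ k, (F i k : ℝ) / ((∑ k, F i k * X i k : ℤ) : ℝ) * X j k =
      ((∑ k, F i k * X j k : ℤ) : ℝ) / ((∑ k, F i k * X i k : ℤ) : ℝ) := fun i j => by
    rw [Int.cast_sum (s := univ) (f := fun k => F i k * X j k), sum_div]
    exact sum_congr rfl fun l _ => by push_cast; ring
  refine ⟨fun i k => F i k / ((∑ k, F i k * X i k : ℤ) : ℝ), fun i k => X i k, fun i => ?_,
    fun i j hij => ?_⟩
  · rw [e, div_self]; exact_mod_cast (h0 i).ne'
  · have p : (0 : ℝ) < ((∑ k, F i k * X i k : ℤ) : ℝ) := by exact_mod_cast h0 i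
    rw [e, lt_div_iff₀ p, div_lt_iff₀ p, zero_mul, neg_one_mul]
    exact_mod_cast h i j hij

/-- Table lookup. -/
def tab (L : List (List ℤ)) {n d : ℕ} (i : Fin n) (k : Fin d) : ℤ := (L.getD i []).getD k 0

def F7 : List (List ℤ) :=
  [[13, -33, 41, 65, 3, 19, 84],
   [46, 25, 8, -84, 65, -3, -35],
   [46, -16, 2, 22, 36, 102, -1],
   [29, -31, 73, -68, -41, 26, 7],
   [-6, 76, 27, -21, -37, 53, -6],
   [5, 50, 63, -23, -2, -59, 39],
   [-45, -23, -17, -22, -60, 54, 77],
   [-2, -12, -17, 40, 120, -11, 26],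
   [1, -48, -15, -85, 31, -39, 64],
   [55, 42, -48, -5, 22, 11, 69],
   [-84, 1, 37, -74, 0, -8, -13],
   [-45, 11, -71, -22, 55, 59, 4],
   [-25, 5, 93, 42, 45, 28, -29],
   [-57, -92, 15, 4, 41, 51, 19],
   [-90, 38, 10, 69, 16, 14, 45]]

def X7 : List (List ℤ) :=
  [[47, -53, 15, 84, -42, -35, 28],
   [46, 21, -18, -39, 24, -27, -71],
   [68, -31, -29, 44, -20, 60, -59],
   [45, -54, 45, -20, -65, -5, -36],
   [4, 80, -12, -1, -61, 30, -49],
   [17, 42, 37, 11, -23, -92, 6],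
   [-22, -32, -61, 5, -99, 5, 16],
   [19, -30, -42, 61, 55, -61, -32],
   [13, -67, -47, -30, -17, -85, 11],
   [67, 39, -72, 17, -22, -21, 29],
   [-75, -7, -5, -36, -33, -45, -67],
   [-35, 8, -107, -2, -2, 17, -58],
   [4, -17, 62, 61, 1, -22, -83],
   [-27, -119, -23, 31, -16, -11, -55],
   [-66, 34, -30, 70, -32, -41, -14]]

def F8 : List (List ℤ) :=
  [[-7, -100, -12, -192, -4, -78, 138, -256],
   [-150, 156, -31, -86, 178, -84, 126, -84],
   [-181, 0, 96, 101, 89, -3, -139, -291],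
   [-17, -8, -245, -55, -33, 126, 206, -51],
   [215, 146, -239, -7, -125, 12, -113, -80],
   [76, -157, -76, -113, 275, 27, 66, -31],
   [-30, 30, -263, 141, 148, 4, -78, -39],
   [118, -193, -239, -15, -37, -30, -128, -200],
   [169, 32, 131, 33, -78, -89, -74, -291],
   [-28, -55, -25, 83, -181, 213, -58, -214],
   [-198, 21, -167, -198, -77, 50, -91, -130],
   [228, 51, -171, 27, 110, -174, 134, -133],
   [68, 180, 5, 221, 27, 51, 75, -165],
   [107, -71, -141, -178, 15, 262, -104, 16],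
   [200, 162, 28, -93, 186, 63, 17, 70],
   [176, -102, 68, 130, 150, 102, -172, -124],
   [9, -22, 231, -230, 115, 94, -80, -109],
   [82, 92, -82, -122, 111, -188, -192, -96],
   [-115, -2, 77, 32, 168, 263, 64, -46],
   [15, -168, -52, 200, 108, 34, 126, -292],
   [6, 196, 67, -181, -130, 91, 86, -90],
   [227, -104, 95, -68, 12, 169, 144, -110]]

def X8 : List (List ℤ) :=
  [[-93, -250, 99, -127, -160, -274, 192, 28],
   [-210, 106, 26, -16, 99, -179, 142, 107],
   [-254, -73, 162, 145, -17, -130, -145, 17],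
   [-71, -65, -148, 34, -128, 40, 254, 153],
   [138, 104, -89, 92, -240, -53, -95, 196],
   [-18, -269, -3, -47, 176, -98, 66, 206],
   [-105, -2, -172, 193, 101, -34, -85, 179],
   [16, -326, -93, 32, -157, -166, -108, 105],
   [101, -44, 228, 83, -228, -218, -39, -6],
   [-67, -99, 53, 147, -287, 125, -37, 42],
   [-263, -67, -67, -123, -153, -69, -97, 102],
   [129, -35, -36, 95, -31, -287, 192, 139],
   [16, 185, 83, 300, -91, -6, 111, 102],
   [29, -146, -41, -63, -85, 164, -126, 287],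
   [138, 146, 85, 10, 97, 13, 6, 261],
   [100, -157, 133, 183, 49, 21, -191, 153],
   [-52, -106, 268, -151, 7, -44, -103, 124],
   [-11, 9, 25, -68, 27, -286, -209, 135],
   [-157, -22, 95, 118, 92, 191, 52, 174],
   [-74, -270, 50, 250, -46, -115, 180, 53],
   [-23, 171, 129, -83, -235, 4, 114, 89],
   [172, -178, 162, 18, -133, 49, 181, 132]]

theorem sys7 : Sys 7 15 := of_int (tab F7) (tab X7) (by decide +kernel) (by decide +kernel)

theorem sys8 : Sys 8 22 := of_int (tab F8) (tab X8) (by decide +kernel) (by decide +kernel)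

theorem sys8' (j : ℕ) : Sys (8 + j) (21 + j + 1) := by
  induction j with
  | zero => exact sys8
  | succ j ih => exact plug (d := 8 + j) (n := 21 + j) (m := 1) (k := 2) ih wsys12

theorem sys_all (d : ℕ) (hd : 7 ≤ d) : ∃ n, 2 * d < n ∧ Sys d n := by
  induction d using Nat.strong_induction_on with
  | _ d ih =>
    rcases hd.eq_or_lt with rfl | h
    · exact ⟨15, by norm_num, sys7⟩
    by_cases h2 : d ≤ 13
    · obtain ⟨j, rfl⟩ : ∃ j, d = 8 + j := ⟨d - 8, by omega⟩
      exact ⟨_, by omega, sys8' j⟩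
    · obtain ⟨j, rfl⟩ : ∃ j, d = j + 7 := ⟨d - 7, by omega⟩
      obtain ⟨n, hn, hs⟩ := ih j (by omega) (by omega)
      obtain ⟨m, rfl⟩ : ∃ m, n = m + 1 := ⟨n - 1, by omega⟩
      exact ⟨_, by omega, plug hs sys7.weak⟩

end Pool.Agent.H.MP_75a0ab_co
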